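import Pool.Agent.helper43.DHB.SpecB

/-!
# MP_5823cb_al, project d2, part G: row bWDF, the digit functions (helper77)
-/

set_option autoImplicit false

open Filter Topology MeasureTheory
open scoped commutatorElement

namespace Pool.Agent.helper90.DH

open Pool.Agent.helper64.D2

theorem bWDF_near (y : ℝ) (l : ℕ) (h : y - l ∈ Set.Ioo (-1 : ℝ) 2) : |(l : ℤ) - ⌊y⌋| ≤ 1 := by
  obtain ⟨h1, h2⟩ := h
  have h3 := Int.floor_le y
  have h4 := Int.lt_floor_add_one y
  have h5 : (l : ℤ) < ⌊y⌋ + 2 := by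
    have : ((l : ℤ) : ℝ) < ((⌊y⌋ + 2 : ℤ) : ℝ) := by
      push_cast
      linarith
    exact_mod_cast this
  have h6 : ⌊y⌋ < (l : ℤ) + 2 := by
    have : ((⌊y⌋ : ℤ) : ℝ) < (((l : ℤ) + 2 : ℤ) : ℝ) := by
      push_cast
      linarith
    exact_mod_cast this
  rw [abs_le]
  constructor <;> omega

theorem bWDF_sum (g : ℝ → ℝ) (B : ℝ) (hg : ∀ x, x ∉ Set.Ioo (-1 : ℝ) 2 → g x = 0) (hB : ∀ x, |g x| ≤ B) (c : ℕ → ℝ)
    (hc : ∀ l, |c l| ≤ 1) (y : ℝ) (s : Finset ℕ) : |∑ l ∈ s, c l * g (y - l)| ≤ 3 * B := by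
  classical
  have hB0 : 0 ≤ B := (abs_nonneg _).trans (hB 0)
  have h1 : ∑ l ∈ s, c l * g (y - l) = ∑ l ∈ s.filter (fun l : ℕ => |(l : ℤ) - ⌊y⌋| ≤ 1), c l * g (y - l) := by
    symm
    refine Finset.sum_filter_of_ne fun l _ hne => ?_
    refine bWDF_near y l ?_
    by_contra hcon
    exact hne (by rw [hg _ hcon, mul_zero])
  have h2 : (s.filter (fun l : ℕ => |(l : ℤ) - ⌊y⌋| ≤ 1)).card ≤ 3 := by
    have h3 : (Finset.Icc (⌊y⌋ - 1) (⌊y⌋ + 1)).card = 3 := by
      rw [Int.card_Icc]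
      omega
    rw [← h3]
    refine Finset.card_le_card_of_injOn (fun l : ℕ => (l : ℤ)) ?_ ?_
    · intro l hl
      have := (Finset.mem_filter.1 hl).2
      rw [abs_le] at this
      simp only [Finset.coe_Icc, Set.mem_Icc]
      constructor <;> omega
    · intro a _ b _ hab
      exact Int.ofNat_inj.1 hab
  rw [h1]
  calc |∑ l ∈ s.filter (fun l : ℕ => |(l : ℤ) - ⌊y⌋| ≤ 1), c l * g (y - l)|
      ≤ ∑ l ∈ s.filter (fun l : ℕ => |(l : ℤ) - ⌊y⌋| ≤ 1), |c l * g (y - l)| := Finset.abs_sum_le_sum_abs _ _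
    _ ≤ ∑ l ∈ s.filter (fun l : ℕ => |(l : ℤ) - ⌊y⌋| ≤ 1), B := by
        refine Finset.sum_le_sum fun l _ => ?_
        rw [abs_mul]
        calc |c l| * |g (y - l)| ≤ 1 * B := mul_le_mul (hc l) (hB _) (abs_nonneg _) zero_le_one
          _ = B := one_mul B
    _ = ((s.filter (fun l : ℕ => |(l : ℤ) - ⌊y⌋| ≤ 1)).card : ℝ) * B := by rw [Finset.sum_const, nsmul_eq_mul]
    _ ≤ 3 * B := by
        refine mul_le_mul_of_nonneg_right ?_ hB0
        exact_mod_cast h2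

theorem bWDF : bWDF_stmt := by
  intro β hβ
  obtain ⟨h1, h2, h3, h4⟩ := hβ
  have hd : ∀ x, x ∉ Set.Ioo (-1 : ℝ) 2 → deriv β x = 0 := by
    intro x hx
    refine IsLocalMin.deriv_eq_zero ?_
    refine Eventually.of_forall fun y => ?_
    rw [h4 x hx]
    exact (h2 y).1
  have hcd : Continuous (deriv β) := h1.continuous_deriv (by norm_num)
  obtain ⟨B, hB⟩ := (isCompact_Icc : IsCompact (Set.Icc (-1 : ℝ) 2)).exists_bound_of_continuousOn hcd.continuousOn
  have hB0 : 0 ≤ B := (norm_nonneg _).trans (hB 0 ⟨by norm_num, by norm_num⟩)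
  have hBB : ∀ x, |deriv β x| ≤ B := by
    intro x
    by_cases hx : x ∈ Set.Icc (-1 : ℝ) 2
    · exact hB x hx
    · rw [hd x fun h => hx (Set.Ioo_subset_Icc_self h), abs_zero]
      exact hB0
  refine ⟨3 * B + 1, by linarith, ?_⟩
  intro u N τ ω hu hN hτ hω
  have hN' : (0 : ℝ) < N := by exact_mod_cast hN
  have hcc : ∀ l, |(ω l : ℝ) / N| ≤ 1 := by
    intro l
    rw [abs_of_nonneg (by positivity), div_le_one hN']
    exact_mod_cast hω l
  have hp : (0 : ℝ) < 2 ^ u := by positivity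
  have hdiff : Differentiable ℝ β := h1.differentiable (by norm_num)
  refine ⟨?_, ?_, ?_, ?_, ?_⟩
  · have hb : ContDiff ℝ 1 β := h1.of_le (by norm_num)
    unfold Wd
    refine contDiff_const.mul (ContDiff.sum fun l _ => contDiff_const.mul (hb.comp ?_))
    exact (contDiff_const.mul contDiff_id).sub contDiff_const
  · intro x
    unfold Wd
    rw [abs_mul, abs_of_nonneg hτ]
    have := bWDF_sum β 1 h4 (fun x => abs_le.2 ⟨by linarith [(h2 x).1], (h2 x).2⟩) (fun l => (ω l : ℝ) / N) hcc (2 ^ u * x)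
      (Finset.Ico (2 ^ (u - 3) + 2) (7 * 2 ^ (u - 3) - 2))
    nlinarith
  · intro x
    have hder : HasDerivAt (Wd β u N τ ω) (τ * ∑ l ∈ Finset.Ico (2 ^ (u - 3) + 2) (7 * 2 ^ (u - 3) - 2),
        ((ω l : ℝ) / N) * (deriv β (2 ^ u * x - l) * 2 ^ u)) x := by
      unfold Wd
      refine HasDerivAt.const_mul τ ?_
      refine HasDerivAt.fun_sum fun l _ => ?_
      refine HasDerivAt.const_mul _ ?_
      have h5 : HasDerivAt (fun x : ℝ => 2 ^ u * x - (l : ℝ)) (2 ^ u) x := by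
        have := ((hasDerivAt_id x).const_mul ((2 : ℝ) ^ u)).sub_const (l : ℝ)
        simpa using this
      exact HasDerivAt.comp x (hdiff _).hasDerivAt h5
    rw [hder.deriv, abs_mul, abs_of_nonneg hτ]
    have h6 : ∑ l ∈ Finset.Ico (2 ^ (u - 3) + 2) (7 * 2 ^ (u - 3) - 2), ((ω l : ℝ) / N) * (deriv β (2 ^ u * x - l) * 2 ^ u)
        = (∑ l ∈ Finset.Ico (2 ^ (u - 3) + 2) (7 * 2 ^ (u - 3) - 2), ((ω l : ℝ) / N) * deriv β (2 ^ u * x - l)) * 2 ^ u := by
      rw [Finset.sum_mul]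
      refine Finset.sum_congr rfl fun l _ => ?_
      ring
    rw [h6, abs_mul, abs_of_pos hp]
    have h7 := bWDF_sum (deriv β) B hd hBB (fun l => (ω l : ℝ) / N) hcc (2 ^ u * x)
      (Finset.Ico (2 ^ (u - 3) + 2) (7 * 2 ^ (u - 3) - 2))
    calc τ * (|∑ l ∈ Finset.Ico (2 ^ (u - 3) + 2) (7 * 2 ^ (u - 3) - 2), ((ω l : ℝ) / N) * deriv β (2 ^ u * x - l)| * 2 ^ u)
        ≤ τ * ((3 * B + 1) * 2 ^ u) := by
          refine mul_le_mul_of_nonneg_left (mul_le_mul_of_nonneg_right ?_ hp.le) hτ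
          linarith
      _ = (3 * B + 1) * τ * 2 ^ u := by ring
  · intro x _ ω' hω'
    unfold Wd
    congr 1
    refine Finset.sum_congr rfl fun l _ => ?_
    by_cases hl : (2 ^ u * x - (l : ℝ)) ∈ Set.Ioo (-1 : ℝ) 2
    · rw [hω' l (bWDF_near _ l hl)]
    · rw [h4 _ hl, mul_zero, mul_zero]
  · intro x hx l hl c
    have hmem : l ∈ Finset.Ico (2 ^ (u - 3) + 2) (7 * 2 ^ (u - 3) - 2) := by
      obtain ⟨v, rfl⟩ : ∃ v, u = v + 3 := ⟨u - 3, by omega⟩
      have hv : v + 3 - 3 = v := by omega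
      rw [hv, Finset.mem_Ico]
      have hP : 16 ≤ 2 ^ v := by
        calc 16 = 2 ^ 4 := by norm_num
          _ ≤ 2 ^ v := Nat.pow_le_pow_right (by norm_num) (by omega)
      have hPr : (16 : ℝ) ≤ 2 ^ v := by exact_mod_cast hP
      have hle : (l : ℝ) ≤ 2 ^ (v + 3) * x := by
        have : ((l : ℤ) : ℝ) ≤ 2 ^ (v + 3) * x := by
          rw [hl]
          exact Int.floor_le _
        exact_mod_cast this
      have hlt : (2 : ℝ) ^ (v + 3) * x < l + 1 := by
        have : (2 : ℝ) ^ (v + 3) * x < ((l : ℤ) : ℝ) + 1 := by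
          rw [hl]
          exact Int.lt_floor_add_one _
        exact_mod_cast this
      have he : (2 : ℝ) ^ (v + 3) = 8 * 2 ^ v := by ring
      rw [he] at hle hlt
      obtain ⟨hx1, hx2⟩ := hx
      have e1 : 8 * 2 ^ v * (1 / 6) ≤ 8 * 2 ^ v * x := mul_le_mul_of_nonneg_left hx1 (by positivity)
      have e2 : 8 * 2 ^ v * x ≤ 8 * 2 ^ v * (5 / 6) := mul_le_mul_of_nonneg_left hx2 (by positivity)
      constructor
      · have : ((2 ^ v + 2 : ℕ) : ℝ) < ((l + 1 : ℕ) : ℝ) := by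
          push_cast
          linarith
        have := Nat.cast_lt.1 this
        omega
      · have : ((l + 2 : ℕ) : ℝ) < ((7 * 2 ^ v : ℕ) : ℝ) := by
          push_cast
          linarith
        have := Nat.cast_lt.1 this
        omega
    have hβ1 : β (2 ^ u * x - l) = 1 := by
      refine h3 _ ?_
      have h5 : ((l : ℤ) : ℝ) ≤ 2 ^ u * x := by
        rw [hl]
        exact Int.floor_le _
      have h6 : (2 : ℝ) ^ u * x < ((l : ℤ) : ℝ) + 1 := by
        rw [hl]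
        exact Int.lt_floor_add_one _
      push_cast at h5 h6
      constructor <;> linarith
    unfold Wd
    rw [← Finset.add_sum_erase _ _ hmem, ← Finset.add_sum_erase _ (fun l' => ((Function.update ω l 0 l' : ℕ) : ℝ) / N * β (2 ^ u * x - l')) hmem]
    rw [hβ1, Function.update_self, Function.update_self]
    have h8 : ∑ l' ∈ (Finset.Ico (2 ^ (u - 3) + 2) (7 * 2 ^ (u - 3) - 2)).erase l, ((Function.update ω l c l' : ℕ) : ℝ) / N * β (2 ^ u * x - l')
        = ∑ l' ∈ (Finset.Ico (2 ^ (u - 3) + 2) (7 * 2 ^ (u - 3) - 2)).erase l, ((Function.update ω l 0 l' : ℕ) : ℝ) / N * β (2 ^ u * x - l') := by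
      refine Finset.sum_congr rfl fun l' hl' => ?_
      have hne := (Finset.mem_erase.1 hl').1
      rw [Function.update_of_ne hne, Function.update_of_ne hne]
    rw [h8]
    push_cast
    ring

end Pool.Agent.helper90.DH
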